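import Pool.Agent.Y812.SS.Wr

/-!
# Direct limits of groups in the class `C`

Owner helper569.
-/

set_option autoImplicit false

namespace Pool.Agent.Y569.FJ

open Pool.Agent.Y462.SS (Closed Wr)

section lim

variable {I : Type} [Preorder I] [IsDirectedOrder I] [Nonempty I] {G : I → Type}
  [∀ i, Group (G i)] (f : ∀ i j, i ≤ j → G i →* G j)
  [DirectedSystem G (fun i j h => f i j h)]

/-- the map of `G i` to the direct limit -/
def ofLim (i : I) : G i →* DirectLimit G f where
  toFun x := ⟦⟨i, x⟩⟧
  map_one' := (DirectLimit.one_def (f := f) i).symm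
  map_mul' x y := (DirectLimit.mul_def (f := f) i x y).symm

theorem ofLim_apply (i j : I) (h : i ≤ j) (x : G i) : ofLim f j (f i j h x) = ofLim f i x :=
  DirectLimit.mk_apply (f := f) i j x h

theorem ofLim_surj (y : DirectLimit G f) : ∃ i, ∃ x : G i, ofLim f i x = y := by
  obtain ⟨i, x, rfl⟩ := DirectLimit.exists_eq_mk (f := f) y
  exact ⟨i, x, rfl⟩

theorem ofLim_eq_one (i : I) (x : G i) (h : ofLim f i x = 1) :
    ∃ j, ∃ h : i ≤ j, f i j h x = 1 :=
  (DirectLimit.exists_eq_one (f := f) ⟨i, x⟩).1 h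

/-- direct limits of groups in `C` are in `C` -/
theorem C_lim {C : ∀ (G : Type) [Group G], Prop} (hC : Closed C) (hG : ∀ i, C (G i)) :
    C (DirectLimit G f) :=
  hC.colim I (fun i j => exists_ge_ge i j) G f (DirectLimit G f) (ofLim f)
    (fun i _ x => DirectedSystem.map_self (f := fun i j h => f i j h) x)
    (fun _ _ _ h h' x => DirectedSystem.map_map (f := fun i j h => f i j h) h h' x)
    (fun i j h x => ofLim_apply f i j h x) (ofLim_surj f) (ofLim_eq_one f) hG

end lim

end Pool.Agent.Y569.FJ
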