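import Pool.Agent.Y110.FJ.Stm6
import Pool.Agent.Y569.FJ.Lim

/-!
# The local criterion for HNN extensions

Owner helper569.
-/

set_option autoImplicit false

namespace Pool.Agent.Y569.FJ

open Pool.Agent.Y462.SS (Closed Wr)
open Pool.Agent.Y110.FJ

/-- the map from a direct limit induced by compatible maps -/
def limLift {I : Type} [Preorder I] [IsDirectedOrder I] [Nonempty I] {G : I → Type}
    [∀ i, Group (G i)] (f : ∀ i j, i ≤ j → G i →* G j)
    [DirectedSystem G (fun i j h => f i j h)] {H : Type} [Group H] (g : ∀ i, G i →* H)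
    (hg : ∀ i j h x, g i x = g j (f i j h x)) : DirectLimit G f →* H where
  toFun := DirectLimit.lift f (fun i x => g i x) hg
  map_one' := DirectLimit.lift_one (f := f) g hg
  map_mul' := DirectLimit.lift_mul (f := f) g hg

/-! ### HNN extensions along two embeddings -/

section two

variable {K N : Type} [Group K] [Group N] (α β : K →* N) (hα : Function.Injective α)
  (hβ : Function.Injective β)

/-- the isomorphism of the ranges -/
noncomputable def eqv : α.range ≃* β.range :=
  (MonoidHom.ofInjective hα).symm.trans (MonoidHom.ofInjective hβ)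

theorem eqv_apply (k : K) : ((eqv α β hα hβ ⟨α k, k, rfl⟩ : β.range) : N) = β k := by
  have h : (⟨α k, k, rfl⟩ : α.range) = MonoidHom.ofInjective hα k := rfl
  rw [h, eqv, MulEquiv.trans_apply, MulEquiv.symm_apply_apply]
  rfl

/-- the HNN extension along two embeddings -/
abbrev Hn : Type := HNNExtension N α.range β.range (eqv α β hα hβ)

variable {α β} in
/-- maps from it -/
noncomputable def hnLift {H : Type} [Group H] (f : N →* H) (x : H)
    (hx : ∀ k, x * f (α k) = f (β k) * x) : Hn α β hα hβ →* H :=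
  HNNExtension.lift f x (by
    rintro ⟨_, k, rfl⟩
    have h1 := hx k
    rw [eqv_apply]
    exact h1)

variable {α β} in
theorem hnLift_of {H : Type} [Group H] (f : N →* H) (x : H)
    (hx : ∀ k, x * f (α k) = f (β k) * x) (y : N) :
    hnLift hα hβ f x hx (HNNExtension.of y) = f y := by
  unfold hnLift
  exact HNNExtension.lift_of _ _ _ _

variable {α β} in
theorem hnLift_t {H : Type} [Group H] (f : N →* H) (x : H)
    (hx : ∀ k, x * f (α k) = f (β k) * x) :
    hnLift hα hβ f x hx HNNExtension.t = x := by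
  unfold hnLift
  exact HNNExtension.lift_t _ _ _

variable {α β} in
theorem hn_rel (k : K) : (HNNExtension.t : Hn α β hα hβ) * HNNExtension.of (α k) =
    HNNExtension.of (β k) * HNNExtension.t := by
  have h := HNNExtension.t_mul_of (G := N) (A := α.range) (B := β.range)
    (φ := eqv α β hα hβ) ⟨α k, k, rfl⟩
  rw [eqv_apply] at h
  exact h

end two

/-! ### the directed system -/

section sys

variable {M : Type} [Group M] {A B : Subgroup M} (φ : A ≃* B)

/-- the index set -/
abbrev Ix (A : Subgroup M) : Type := Finset M × Finset A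

/-- the generators -/
abbrev Sg (i : Ix A) : Set M :=
  (i.1 : Set M) ∪ {y | ∃ a : A, (a : M) ∈ (Subtype.val '' (i.2 : Set A) : Set M) ∧
    (y = a ∨ y = φ a)}

/-- the base groups -/
abbrev Mi (i : Ix A) : Subgroup M := Subgroup.closure (Sg φ i)

/-- the associated groups -/
abbrev Ki (i : Ix A) : Subgroup A := Subgroup.closure (i.2 : Set A)

theorem Sg_mono {i j : Ix A} (h : i ≤ j) : Sg φ i ⊆ Sg φ j := by
  rintro y (hy | ⟨a, ⟨b, hb, hba⟩, ha⟩)
  · exact Or.inl (h.1 hy)
  · exact Or.inr ⟨a, ⟨b, h.2 hb, hba⟩, ha⟩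

theorem Mi_mono {i j : Ix A} (h : i ≤ j) : Mi φ i ≤ Mi φ j := Subgroup.closure_mono (Sg_mono φ h)

theorem Ki_mono {i j : Ix A} (h : i ≤ j) : Ki i ≤ Ki j :=
  Subgroup.closure_mono (fun _ hx => h.2 hx)

theorem memA (i : Ix A) (k : Ki i) : ((k : A) : M) ∈ Mi φ i := by
  have h : Ki i ≤ (Mi φ i).comap A.subtype := by
    rw [Subgroup.closure_le]
    intro a ha
    exact Subgroup.subset_closure (Or.inr ⟨a, ⟨a, ha, rfl⟩, Or.inl rfl⟩)
  exact h k.2

theorem memB (i : Ix A) (k : Ki i) : ((φ (k : A) : B) : M) ∈ Mi φ i := by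
  have h : Ki i ≤ (Mi φ i).comap (B.subtype.comp φ.toMonoidHom) := by
    rw [Subgroup.closure_le]
    intro a ha
    exact Subgroup.subset_closure (Or.inr ⟨a, ⟨a, ha, rfl⟩, Or.inr rfl⟩)
  exact h k.2

/-- the first embedding -/
def ai (i : Ix A) : Ki i →* Mi φ i where
  toFun k := ⟨((k : A) : M), memA φ i k⟩
  map_one' := rfl
  map_mul' _ _ := rfl

/-- the second embedding -/
def bi (i : Ix A) : Ki i →* Mi φ i where
  toFun k := ⟨((φ (k : A) : B) : M), memB φ i k⟩
  map_one' := by
    apply Subtype.ext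
    simp
  map_mul' _ _ := by
    apply Subtype.ext
    simp

theorem ai_inj (i : Ix A) : Function.Injective (ai φ i) := by
  intro k l h
  apply Subtype.ext
  apply Subtype.ext
  exact congrArg (fun z : Mi φ i => (z : M)) h

theorem bi_inj (i : Ix A) : Function.Injective (bi φ i) := by
  intro k l h
  apply Subtype.ext
  apply φ.injective
  apply Subtype.ext
  exact congrArg (fun z : Mi φ i => (z : M)) h

/-- the groups of the system -/
abbrev Gi (i : Ix A) : Type := Hn (ai φ i) (bi φ i) (ai_inj φ i) (bi_inj φ i)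

/-- the transition maps -/
noncomputable def fi (i j : Ix A) (h : i ≤ j) : Gi φ i →* Gi φ j :=
  hnLift (ai_inj φ i) (bi_inj φ i) (HNNExtension.of.comp (Subgroup.inclusion (Mi_mono φ h)))
    HNNExtension.t (fun k => hn_rel (ai_inj φ j) (bi_inj φ j) (Subgroup.inclusion (Ki_mono h) k))

theorem fi_of (i j : Ix A) (h : i ≤ j) (x : Mi φ i) :
    fi φ i j h (HNNExtension.of x) = HNNExtension.of (Subgroup.inclusion (Mi_mono φ h) x) :=
  hnLift_of _ _ _ _ _ _

theorem fi_t (i j : Ix A) (h : i ≤ j) : fi φ i j h HNNExtension.t = HNNExtension.t :=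
  hnLift_t _ _ _ _ _

instance : DirectedSystem (Gi φ) (fun i j h => fi φ i j h) where
  map_self i x := by
    have h : fi φ i i le_rfl = MonoidHom.id _ := by
      apply HNNExtension.hom_ext
      · ext y
        exact fi_of φ i i le_rfl y
      · exact fi_t φ i i le_rfl
    exact DFunLike.congr_fun h x
  map_map k j i h h' x := by
    have h3 : (fi φ j k h').comp (fi φ i j h) = fi φ i k (h.trans h') := by
      apply HNNExtension.hom_ext
      · ext y
        simp only [MonoidHom.comp_apply]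
        rw [fi_of, fi_of, fi_of]
        rfl
      · simp only [MonoidHom.comp_apply]
        rw [fi_t, fi_t, fi_t]
    exact DFunLike.congr_fun h3 x

/-- the maps to the HNN extension -/
noncomputable def gi (i : Ix A) : Gi φ i →* HNNExtension M A B φ :=
  hnLift (ai_inj φ i) (bi_inj φ i) (HNNExtension.of.comp (Mi φ i).subtype)
    HNNExtension.t (fun k => HNNExtension.t_mul_of (k : A))

theorem gi_of (i : Ix A) (x : Mi φ i) : gi φ i (HNNExtension.of x) = HNNExtension.of (x : M) :=
  hnLift_of _ _ _ _ _ _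

theorem gi_t (i : Ix A) : gi φ i HNNExtension.t = HNNExtension.t :=
  hnLift_t _ _ _ _ _

theorem gi_fi (i j : Ix A) (h : i ≤ j) (x : Gi φ i) : gi φ i x = gi φ j (fi φ i j h x) := by
  have h3 : gi φ i = (gi φ j).comp (fi φ i j h) := by
    apply HNNExtension.hom_ext
    · ext y
      simp only [MonoidHom.comp_apply]
      rw [fi_of, gi_of, gi_of]
      rfl
    · simp only [MonoidHom.comp_apply]
      rw [fi_t, gi_t, gi_t]
  exact DFunLike.congr_fun h3 x

instance : IsDirectedOrder (Ix A) := by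
  classical
  exact inferInstance

/-- the direct limit -/
abbrev Lm : Type := DirectLimit (Gi φ) (fi φ)

theorem mem_one (x : M) : x ∈ Mi φ (({x}, ∅) : Ix A) :=
  Subgroup.subset_closure (Or.inl (by simp))

/-- the map from the base group to the limit -/
noncomputable def mu0 (x : M) : Lm φ :=
  ofLim (fi φ) (({x}, ∅) : Ix A) (HNNExtension.of ⟨x, mem_one φ x⟩)

theorem mu0_eq (i : Ix A) (x : M) (hx : x ∈ Mi φ i) :
    ofLim (fi φ) i (HNNExtension.of ⟨x, hx⟩) = mu0 φ x := by
  obtain ⟨j, h1, h2⟩ := exists_ge_ge i (({x}, ∅) : Ix A)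
  rw [mu0, ← ofLim_apply (fi φ) i j h1, ← ofLim_apply (fi φ) _ j h2, fi_of, fi_of]
  rfl

theorem t_eq (i j : Ix A) : ofLim (fi φ) i HNNExtension.t = ofLim (fi φ) j HNNExtension.t := by
  obtain ⟨k, h1, h2⟩ := exists_ge_ge i j
  rw [← ofLim_apply (fi φ) i k h1, ← ofLim_apply (fi φ) j k h2, fi_t, fi_t]

/-- the map from the base group to the limit -/
noncomputable def mu : M →* Lm φ where
  toFun := mu0 φ
  map_one' := by
    rw [← mu0_eq φ ((∅, ∅) : Ix A) 1 (one_mem _)]
    exact map_one ((ofLim (fi φ) ((∅, ∅) : Ix A)).comp HNNExtension.of)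
  map_mul' x y := by
    obtain ⟨j, h1, h2⟩ := exists_ge_ge (({x}, ∅) : Ix A) (({y}, ∅) : Ix A)
    have hx : x ∈ Mi φ j := Mi_mono φ h1 (mem_one φ x)
    have hy : y ∈ Mi φ j := Mi_mono φ h2 (mem_one φ y)
    rw [← mu0_eq φ j x hx, ← mu0_eq φ j y hy, ← mu0_eq φ j (x * y) (mul_mem hx hy)]
    exact map_mul ((ofLim (fi φ) j).comp HNNExtension.of) ⟨x, hx⟩ ⟨y, hy⟩

/-- the map from the HNN extension to the limit -/
noncomputable def Phi : HNNExtension M A B φ →* Lm φ :=
  HNNExtension.lift (mu φ) (ofLim (fi φ) ((∅, ∅) : Ix A) HNNExtension.t) (by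
    intro a
    set i : Ix A := (∅, {a}) with hi
    have hk : a ∈ Ki i := Subgroup.subset_closure (by simp [hi])
    rw [t_eq φ _ i]
    have h1 : mu φ (a : M) = ofLim (fi φ) i (HNNExtension.of (ai φ i ⟨a, hk⟩)) :=
      (mu0_eq φ i a (memA φ i ⟨a, hk⟩)).symm
    have h2 : mu φ (φ a : M) = ofLim (fi φ) i (HNNExtension.of (bi φ i ⟨a, hk⟩)) :=
      (mu0_eq φ i (φ a) (memB φ i ⟨a, hk⟩)).symm
    rw [h1, h2, ← map_mul, ← map_mul]
    exact congrArg _ (hn_rel (ai_inj φ i) (bi_inj φ i) ⟨a, hk⟩))

/-- the map from the limit to the HNN extension -/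
noncomputable def Psi : Lm φ →* HNNExtension M A B φ :=
  limLift (fi φ) (gi φ) (gi_fi φ)

theorem Psi_of (i : Ix A) (x : Gi φ i) : Psi φ (ofLim (fi φ) i x) = gi φ i x := rfl

theorem Psi_Phi : (Psi φ).comp (Phi φ) = MonoidHom.id _ := by
  apply HNNExtension.hom_ext
  · ext x
    simp only [MonoidHom.comp_apply, MonoidHom.id_apply]
    have h1 : Phi φ (HNNExtension.of x) = mu0 φ x := HNNExtension.lift_of _ _ _ _
    rw [h1, mu0, Psi_of, gi_of]
  · simp only [MonoidHom.comp_apply, MonoidHom.id_apply]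
    have h1 : Phi φ HNNExtension.t = ofLim (fi φ) ((∅, ∅) : Ix A) HNNExtension.t :=
      HNNExtension.lift_t _ _ _
    rw [h1, Psi_of, gi_t]

theorem Phi_inj : Function.Injective (Phi φ) := by
  intro x y h
  have h1 := DFunLike.congr_fun (Psi_Phi φ) x
  have h2 := DFunLike.congr_fun (Psi_Phi φ) y
  simp only [MonoidHom.comp_apply, MonoidHom.id_apply] at h1 h2
  rw [← h1, ← h2, h]

end sys

/-- **the local criterion for HNN extensions** -/
theorem t_hnc (h : S_HNN) : S_HNC := by
  intro C hC M _ A B φ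
  constructor
  · intro hG E D _ _ _
    refine ⟨HNNExtension M A B φ, inferInstance, HNNExtension.of.comp (Subgroup.subtype _),
      HNNExtension.t, hG, ?_, ?_⟩
    · exact (HNNExtension.of_injective φ).comp Subtype.val_injective
    · intro x y a _ hx hy
      simp only [MonoidHom.comp_apply, Subgroup.subtype_apply]
      rw [hx, hy, HNNExtension.equiv_eq_conj]
  · intro hp
    refine hC.base.of_injective _ _ (Phi φ) (Phi_inj φ) (C_lim (fi φ) hC.base ?_)
    intro i
    obtain ⟨P, _, f, p, hP, hf, hr⟩ := hp (i.1 : Set M) (Subtype.val '' (i.2 : Set A))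
      i.1.finite_toSet (i.2.finite_toSet.image _) (by rintro _ ⟨a, _, rfl⟩; exact a.2)
    have hr' : ∀ k : Ki i, p * f (ai φ i k) = f (bi φ i k) * p := by
      have h1 : ((MulAut.conj p).toMonoidHom.comp f).comp (ai φ i) =
          (f : Mi φ i →* P).comp (bi φ i) := by
        apply MonoidHom.eq_of_eqOn_dense (Subgroup.closure_closure_coe_preimage (k := (i.2 : Set A)))
        intro k hk
        have h2 := hr (ai φ i k) (bi φ i k) (k : A) ⟨(k : A), hk, rfl⟩ rfl rfl
        simp only [MonoidHom.comp_apply, MulEquiv.coe_toMonoidHom, MulAut.conj_apply]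
        exact h2.symm
      intro k
      have h3 := DFunLike.congr_fun h1 k
      simp only [MonoidHom.comp_apply, MulEquiv.coe_toMonoidHom, MulAut.conj_apply] at h3
      rw [← h3]
      group
    refine h C hC (Mi φ i) P _ _ _ (hnLift (ai_inj φ i) (bi_inj φ i) f p hr') ?_ hP
    have h4 : (hnLift (ai_inj φ i) (bi_inj φ i) f p hr').comp HNNExtension.of = f :=
      MonoidHom.ext (fun x => hnLift_of (ai_inj φ i) (bi_inj φ i) f p hr' x)
    rw [h4]
    exact hf

end Pool.Agent.Y569.FJ
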