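import Pool.Agent.Y110.FJ.Stm6
import Pool.Agent.Y569.FJ.Lim

/-!
# Every group in `C` embeds in a divisible group in `C`

Owner helper569.
-/

set_option autoImplicit false

namespace Pool.Agent.Y569.FJ

open Pool.Agent.Y462.SS (Closed Wr)
open Pool.Agent.Y110.FJ

/-- the diagonal embedding -/
def diag (X Γ : Type) [Group Γ] : Γ →* Wr X Γ where
  toFun g := ⟨fun _ => g, 1⟩
  map_one' := rfl
  map_mul' _ _ := rfl

theorem diag_injective (X Γ : Type) [Group Γ] [Nonempty X] : Function.Injective (diag X Γ) := by
  intro a b h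
  obtain ⟨x⟩ := ‹Nonempty X›
  exact congrFun (congrArg Wr.s h) x

/-- the element whose `N`-th power is the diagonal element `g` -/
def rt (N : ℕ) {Γ : Type} [Group Γ] (g : Γ) : Wr (ZMod N) Γ :=
  ⟨fun y => if y = 0 then g else 1, Equiv.addRight 1⟩

theorem rt_pow_p (N : ℕ) {Γ : Type} [Group Γ] (g : Γ) (k : ℕ) (y : ZMod N) :
    ((rt N g) ^ k).p y = y + k := by
  induction k with
  | zero => simp
  | succ k ih =>
    rw [pow_succ', Wr.mul_p, Equiv.Perm.mul_apply, ih]
    simp only [rt, Equiv.coe_addRight]
    push_cast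
    ring

theorem rt_pow_s (N : ℕ) {Γ : Type} [Group Γ] (g : Γ) (k : ℕ) (hk : k ≤ N) (y : ZMod N) :
    ((rt N g) ^ k).s y = if ∃ j < k, y + (j : ZMod N) = 0 then g else 1 := by
  induction k with
  | zero => simp
  | succ k ih =>
    rw [pow_succ', Wr.mul_s, rt_pow_p, ih (by omega)]
    by_cases h0 : y + (k : ZMod N) = 0
    · rw [if_neg, if_pos ⟨k, by omega, h0⟩]
      · simp [rt, h0]
      · rintro ⟨j, hj, h1⟩
        have h2 : ((k - j : ℕ) : ZMod N) = 0 := by
          rw [Nat.cast_sub hj.le]
          linear_combination h0 - h1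
        rw [ZMod.natCast_eq_zero_iff] at h2
        have := Nat.le_of_dvd (by omega) h2
        omega
    · have h3 : (rt N g).s (y + (k : ZMod N)) = 1 := by simp [rt, h0]
      rw [h3, one_mul]
      congr 1
      apply propext
      constructor
      · rintro ⟨j, hj, h1⟩
        exact ⟨j, by omega, h1⟩
      · rintro ⟨j, hj, h1⟩
        refine ⟨j, ?_, h1⟩
        rcases Nat.lt_succ_iff_lt_or_eq.1 hj with h | h
        · exact h
        · exact absurd (h ▸ h1) h0

theorem rt_pow (N : ℕ) (hN : 0 < N) {Γ : Type} [Group Γ] (g : Γ) :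
    (rt N g) ^ N = diag (ZMod N) Γ g := by
  have : NeZero N := ⟨hN.ne'⟩
  apply Wr.ext
  · funext y
    rw [rt_pow_s N g N le_rfl, if_pos]
    · rfl
    · exact ⟨(-y).val, ZMod.val_lt _, by simp⟩
  · apply Equiv.ext
    intro y
    rw [rt_pow_p]
    simp [diag]

/-- a bundled group -/
structure Gp where
  carrier : Type
  grp : Group carrier

attribute [instance] Gp.grp

/-- the tower of wreath products -/
def tow (G : Type) [Group G] : ℕ → Gp
  | 0 => ⟨G, inferInstance⟩
  | k + 1 => ⟨Wr (ZMod (k + 1).factorial) (tow G k).carrier, inferInstance⟩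

/-- the groups of the tower -/
abbrev TT (G : Type) [Group G] (k : ℕ) : Type := (tow G k).carrier

/-- one step of the tower -/
def stp (G : Type) [Group G] (k : ℕ) : TT G k →* TT G (k + 1) :=
  diag (ZMod (k + 1).factorial) (TT G k)

theorem stp_injective (G : Type) [Group G] (k : ℕ) : Function.Injective (stp G k) :=
  diag_injective (ZMod (k + 1).factorial) (TT G k)

/-- the transition maps -/
def tr (G : Type) [Group G] (m n : ℕ) (h : m ≤ n) : TT G m →* TT G n :=
  Nat.leRecOn (C := fun n => TT G m →* TT G n) h (fun {k} g => (stp G k).comp g) (MonoidHom.id _)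

theorem tr_self (G : Type) [Group G] (m : ℕ) : tr G m m le_rfl = MonoidHom.id _ :=
  Nat.leRecOn_self _

theorem tr_succ (G : Type) [Group G] (m n : ℕ) (h : m ≤ n) :
    tr G m (n + 1) (h.trans n.le_succ) = (stp G n).comp (tr G m n h) :=
  Nat.leRecOn_succ h _

theorem tr_tr (G : Type) [Group G] (i j k : ℕ) (h : i ≤ j) (h' : j ≤ k) (x : TT G i) :
    tr G j k h' (tr G i j h x) = tr G i k (h.trans h') x := by
  induction k, h' using Nat.le_induction with
  | base => rw [tr_self]; rfl
  | succ n hn ih =>
    rw [tr_succ G j n hn, tr_succ G i n (h.trans hn)]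
    exact congrArg (stp G n) ih

theorem tr_injective (G : Type) [Group G] (i j : ℕ) (h : i ≤ j) :
    Function.Injective (tr G i j h) := by
  induction j, h using Nat.le_induction with
  | base => rw [tr_self]; exact fun _ _ h => h
  | succ n hn ih =>
    rw [tr_succ G i n hn]
    exact (stp_injective G n).comp ih

instance (G : Type) [Group G] : DirectedSystem (TT G) (fun i j h => tr G i j h) where
  map_self i x := by rw [tr_self]; rfl
  map_map k j i h h' x := tr_tr G i j k h h' x

theorem C_tow {C : ∀ (G : Type) [Group G], Prop} (hC : Closed C) (G : Type) [Group G] (h : C G)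
    (k : ℕ) : C (TT G k) := by
  induction k with
  | zero => exact h
  | succ k ih =>
    have : NeZero (k + 1).factorial := ⟨(Nat.factorial_pos _).ne'⟩
    exact Pool.Agent.Y812.SS.t_wr C hC (ZMod (k + 1).factorial) (TT G k) inferInstance ih

theorem countable_tow (G : Type) [Group G] [Countable G] (k : ℕ) : Countable (TT G k) := by
  induction k with
  | zero => exact (inferInstance : Countable G)
  | succ k ih =>
    have : NeZero (k + 1).factorial := ⟨(Nat.factorial_pos _).ne'⟩
    have hi : Function.Injective (fun a : Wr (ZMod (k + 1).factorial) (TT G k) => (a.s, a.p)) := by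
      intro a b hab
      simp only [Prod.mk.injEq] at hab
      exact Wr.ext hab.1 hab.2
    exact hi.countable

/-- every group in `C` embeds in a divisible group in `C`, which is countable if the group is -/
theorem t_div : S_DIV := by
  intro C hC G _ hG
  refine ⟨DirectLimit (TT G) (tr G), inferInstance, ofLim (tr G) 0, ?_, ?_, ?_, ?_⟩
  · exact DirectLimit.mk_injective (f := tr G) (tr_injective G) 0
  · exact C_lim (tr G) hC (C_tow hC G hG)
  · intro h n hn
    obtain ⟨k, x, rfl⟩ := ofLim_surj (tr G) h
    set m := max k n with hm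
    have hkm : k ≤ m := le_max_left _ _
    have hnm : n ∣ (m + 1).factorial :=
      Nat.dvd_factorial hn ((le_max_right k n).trans (Nat.le_succ _))
    obtain ⟨c, hc⟩ := hnm
    let y : TT G (m + 1) := rt (m + 1).factorial (tr G k m hkm x)
    have hy : y ^ (m + 1).factorial = stp G m (tr G k m hkm x) :=
      rt_pow (m + 1).factorial (Nat.factorial_pos _) (tr G k m hkm x)
    refine ⟨ofLim (tr G) (m + 1) (y ^ c), ?_⟩
    rw [← map_pow, ← pow_mul, mul_comm, ← hc, hy]
    have h1 : stp G m (tr G k m hkm x) = tr G k (m + 1) (hkm.trans m.le_succ) x := by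
      rw [tr_succ G k m hkm]; rfl
    rw [h1, ofLim_apply]
  · intro hG'
    have : ∀ k, Countable (TT G k) := countable_tow G
    exact inferInstance

end Pool.Agent.Y569.FJ
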